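import Pool.Agent.H36.RP.Targets

/-!
# MP_c59857_nt, board rp_modules: row PYT (helper35), conditional expectations and distances
-/

set_option autoImplicit false

open MeasureTheory ProbabilityTheory Filter Topology Finset

namespace Pool.Agent.H35.RP

open Pool.Agent.H36.RP
open Pool.Agent.H89.MT (I1 X pt z1 IsMult)

section

variable {α : Type} {m m0 : MeasurableSpace α} {μ : Measure α} [IsProbabilityMeasure μ]

theorem bdd_condExp {f : α → ℝ} {C : ℝ} (hfC : ∀ x, |f x| ≤ C) :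
    ∀ᵐ x ∂μ, |(μ[f | m]) x| ≤ max C 0 := by
  have h1 := ae_bdd_condExp_of_ae_bdd (m := m) (μ := μ) (R := Real.toNNReal C) (f := f)
    (Eventually.of_forall fun x => (hfC x).trans (Real.le_coe_toNNReal C))
  filter_upwards [h1] with x hx
  rwa [Real.coe_toNNReal'] at hx

theorem int_bdd {g : α → ℝ} {C : ℝ} (hg : AEStronglyMeasurable g μ) (hC : ∀ᵐ x ∂μ, |g x| ≤ C) :
    Integrable g μ := Integrable.of_bound hg C hC

/-- the theorem of Pythagoras -/
theorem pyth (hm : m ≤ m0) {f h : α → ℝ} {C D : ℝ} (hf : Measurable f)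
    (hfC : ∀ x, |f x| ≤ C) (hh : StronglyMeasurable[m] h) (hD : ∀ᵐ x ∂μ, |h x| ≤ D) :
    ∫ x, (f x - h x) ^ 2 ∂μ =
      ∫ x, (f x - (μ[f | m]) x) ^ 2 ∂μ + ∫ x, ((μ[f | m]) x - h x) ^ 2 ∂μ := by
  set P : α → ℝ := μ[f | m] with hP
  have hPm : StronglyMeasurable[m] P := stronglyMeasurable_condExp
  have hPb : ∀ᵐ x ∂μ, |P x| ≤ max C 0 := bdd_condExp hfC
  have hP0 : AEStronglyMeasurable P μ := (hPm.mono hm).aestronglyMeasurable
  have hh0 : AEStronglyMeasurable h μ := (hh.mono hm).aestronglyMeasurable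
  have hf0 : AEStronglyMeasurable f μ := hf.aestronglyMeasurable
  have hfb : ∀ᵐ x ∂μ, |f x| ≤ max C 0 :=
    Eventually.of_forall fun x => (hfC x).trans (le_max_left _ _)
  have hmul : ∀ {u v : α → ℝ} {A B : ℝ}, (∀ᵐ x ∂μ, |u x| ≤ A) → (∀ᵐ x ∂μ, |v x| ≤ B) →
      ∀ᵐ x ∂μ, |u x * v x| ≤ A * B := by
    intro u v A B h1 h2
    filter_upwards [h1, h2] with x h3 h4
    rw [abs_mul]
    exact mul_le_mul h3 h4 (abs_nonneg _) ((abs_nonneg _).trans h3)
  have hsub : ∀ {u v : α → ℝ} {A B : ℝ}, (∀ᵐ x ∂μ, |u x| ≤ A) → (∀ᵐ x ∂μ, |v x| ≤ B) →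
      ∀ᵐ x ∂μ, |u x - v x| ≤ A + B := by
    intro u v A B h1 h2
    filter_upwards [h1, h2] with x h3 h4
    exact (abs_sub _ _).trans (add_le_add h3 h4)
  -- the function `P - h`
  set g : α → ℝ := fun x => P x - h x with hg
  have hgm : StronglyMeasurable[m] g := hPm.sub hh
  have hg0 : AEStronglyMeasurable g μ := (hgm.mono hm).aestronglyMeasurable
  have hgb := hsub hPb hD
  have i1 : Integrable (fun x => g x * f x) μ := int_bdd (hg0.mul hf0) (hmul hgb hfb)
  have i2 : Integrable (fun x => g x * P x) μ := int_bdd (hg0.mul hP0) (hmul hgb hPb)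
  have i3 : Integrable f μ := int_bdd hf0 hfb
  have e1 : ∫ x, g x * f x ∂μ = ∫ x, g x * P x ∂μ := by
    have h1 := condExp_mul_of_stronglyMeasurable_left (μ := μ) (m := m) (f := g) (g := f) hgm i1 i3
    rw [← integral_condExp hm]
    exact integral_congr_ae h1
  have hfP := hsub hfb hPb
  have hfPm : AEStronglyMeasurable (fun x => f x - P x) μ := hf0.sub hP0
  have j1 : Integrable (fun x => (f x - P x) ^ 2) μ := by
    have := int_bdd (hfPm.mul hfPm) (hmul hfP hfP)
    refine this.congr (Eventually.of_forall fun x => ?_)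
    show (f x - P x) * (f x - P x) = (f x - P x) ^ 2
    ring
  have j2 : Integrable (fun x => (P x - h x) ^ 2) μ := by
    have := int_bdd (hg0.mul hg0) (hmul hgb hgb)
    refine this.congr (Eventually.of_forall fun x => ?_)
    show (P x - h x) * (P x - h x) = (P x - h x) ^ 2
    ring
  have e2 : ∀ x, (f x - h x) ^ 2 = ((f x - P x) ^ 2 + (P x - h x) ^ 2) +
      2 * (g x * f x - g x * P x) := by
    intro x
    show (f x - h x) ^ 2 = ((f x - P x) ^ 2 + (P x - h x) ^ 2) +
      2 * ((P x - h x) * f x - (P x - h x) * P x)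
    ring
  have k1 : ∫ x, (((f x - P x) ^ 2 + (P x - h x) ^ 2) + 2 * (g x * f x - g x * P x)) ∂μ =
      ∫ x, ((f x - P x) ^ 2 + (P x - h x) ^ 2) ∂μ + ∫ x, 2 * (g x * f x - g x * P x) ∂μ :=
    integral_add (j1.add j2) ((i1.sub i2).const_mul 2)
  have k2 : ∫ x, ((f x - P x) ^ 2 + (P x - h x) ^ 2) ∂μ =
      ∫ x, (f x - P x) ^ 2 ∂μ + ∫ x, (P x - h x) ^ 2 ∂μ := integral_add j1 j2
  have k3 : ∫ x, 2 * (g x * f x - g x * P x) ∂μ = 0 := by
    have k4 : ∫ x, (g x * f x - g x * P x) ∂μ = ∫ x, g x * f x ∂μ - ∫ x, g x * P x ∂μ :=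
      integral_sub i1 i2
    rw [integral_const_mul, k4, e1, sub_self, mul_zero]
  rw [integral_congr_ae (Eventually.of_forall e2), k1, k2, k3, add_zero]

end

/-- [PYT] Conditional expectations and distances. -/
theorem pf_PYT : T_PYT := by
  intro κ _ f C hf hfC
  refine ⟨fun q h D hh hD => ?_, fun q q' hq hle => ?_⟩
  · rw [pyth (past_le q) hf hfC hh.stronglyMeasurable (Eventually.of_forall hD)]
    have : 0 ≤ ∫ x, ((κ[f | past q]) x - h x) ^ 2 ∂κ := integral_nonneg fun x => sq_nonneg _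
    linarith
  · have h1 : StronglyMeasurable[past q'] (κ[f | past q]) :=
      (stronglyMeasurable_condExp (m := past q)).mono (past_mono hq)
    have h2 : ∀ᵐ x ∂κ, |(κ[f | past q]) x| ≤ max C 0 := bdd_condExp hfC
    have h3 := pyth (μ := κ) (past_le q') hf hfC h1 h2
    have h4 : ∫ x, ((κ[f | past q']) x - (κ[f | past q]) x) ^ 2 ∂κ = 0 := by
      have : 0 ≤ ∫ x, ((κ[f | past q']) x - (κ[f | past q]) x) ^ 2 ∂κ :=
        integral_nonneg fun x => sq_nonneg _
      linarith
    have h5 : Integrable (fun x => ((κ[f | past q']) x - (κ[f | past q]) x) ^ 2) κ := by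
      have h6 : ∀ᵐ x ∂κ, |(κ[f | past q']) x| ≤ max C 0 := bdd_condExp hfC
      have h7 : AEStronglyMeasurable (fun x => ((κ[f | past q']) x - (κ[f | past q]) x) ^ 2) κ :=
        ((((stronglyMeasurable_condExp (m := past q')).mono (past_le q')).sub
          ((stronglyMeasurable_condExp (m := past q)).mono (past_le q))).pow 2).aestronglyMeasurable
      refine int_bdd (C := (max C 0 + max C 0) ^ 2) h7 ?_
      filter_upwards [h2, h6] with x h8 h9
      rw [abs_pow]
      exact pow_le_pow_left₀ (abs_nonneg _) ((abs_sub _ _).trans (add_le_add h9 h8)) 2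
    rw [integral_eq_zero_iff_of_nonneg (fun x => sq_nonneg _) h5] at h4
    filter_upwards [h4] with x hx
    have h10 : ((κ[f | past q']) x - (κ[f | past q]) x) ^ 2 = 0 := hx
    have h11 := pow_eq_zero_iff (two_ne_zero) |>.1 h10
    linarith

end Pool.Agent.H35.RP
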